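import Pool.Agent.W2helper62.CycC

/-!
# Independence of `ℓ` of local Euler factors: reduction to cyclic extensions

Let `W` be the Weil group of `ℚ_p` (or of a finite extension of `ℚ_p`), let `deg : W → ℤ` be the
degree, with value `1` at the geometric Frobenius elements, and let `N` be the Weil group of a
finite Galois extension `L`. The subgroups `H` with `N ≤ H` are the Weil groups of the fields `F`
between `ℚ_p` and `L`, and `H` is generated by `N` and one element if and only if `L / F` is cyclic.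
Let `V_ℓ`, for all primes `ℓ ≠ p`, be the `ℓ`-adic realisations (in one degree) of a motive `M`.

The theorem: if the local factors `det (1 - T φ | V_ℓ ^ I_F)` of `M` over the fields `F` for which
`L / F` is cyclic are polynomials over `ℚ` which do not depend on `ℓ`, then the same holds for the
local factors over all fields between `ℚ_p` and `L`, in particular for the Euler factor of `M` at
`p`. Nothing is assumed about semisimplicity, about weights or about the monodromy operator. If `L`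
is chosen such that `M` has semistable reduction over `L`, this reduces the question for all motives
to the motives which acquire semistable reduction over a cyclic extension of the base field.

Proof. Let `J = N ∩ ker deg` be the inertia group of `L`, and let `t_ℓ(x)` be the trace of `x ∈ W/J`
on `V_ℓ ^ J`. For `H ≥ N` with Frobenius element `φ` of degree `f` the sum of `t_ℓ(x)` over the
elements `x ∈ H/J` of degree `m` is `[H ∩ ker deg : J] tr(φ ^ (m / f) | V_ℓ ^ (H ∩ ker deg))` if `f`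
divides `m`, and `0` otherwise. The elements `x` of `H/J` of degree `m` are collected according to
the subgroup `C` which `x` and `N` generate. By induction on `C` the sum of `t_ℓ(x)` over the
`x` which generate `C` is rational and independent of `ℓ`, for all `C`; the sum over all `C ≤ H`
gives the traces for `H`, and Newton's identities give the local factor.
-/

set_option autoImplicit false

namespace Pool.Agent.Results.MP_a3c811_ag.CyclicExtensions

open Module Polynomial
open Pool.Agent.W2helper62.Cyc Pool.Agent.R401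

/-- `φ` is a geometric Frobenius element of the subgroup `H`: its degree is positive and divides the
degrees of all elements of `H`. -/
def IsFrobenius {W : Type} [Group W] (deg : W →* Multiplicative ℤ) (H : Subgroup W) (φ : W) : Prop :=
  φ ∈ H ∧ 0 < (deg φ).toAdd ∧ ∀ h ∈ H, (deg φ).toAdd ∣ (deg h).toAdd

/-- `f` is the polynomial `det (1 - T φ)` on the vectors which are fixed by the inertia subgroup
of `H`: if `A` is the matrix of `φ` with respect to a basis `b` of this space then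
`f = det (1 - T A)`. -/
def IsLocalFactor {W : Type} [Group W] (deg : W →* Multiplicative ℤ) {k : Type} [Field k] {n : ℕ}
    (ρ : Representation k W (Fin n → k)) (H : Subgroup W) (φ : W) (f : k[X]) : Prop :=
  ∃ (m : ℕ) (b : Basis (Fin m) k (inertiaInvariants deg ρ H)) (A : Matrix (Fin m) (Fin m) k),
    (∀ j, ρ φ (b j : Fin n → k) = ∑ i, A i j • (b i : Fin n → k)) ∧
    f = (1 - (X : k[X]) • A.map C).det

/-- The local factor over `H` is a polynomial with rational coefficients which does not depend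
on `ℓ`. -/
def Independent {W : Type} [Group W] (deg : W →* Multiplicative ℤ) (p : ℕ) {n : ℕ}
    (V : ∀ (ℓ : ℕ) [Fact ℓ.Prime], Representation ℚ_[ℓ] W (Fin n → ℚ_[ℓ])) (H : Subgroup W) : Prop :=
  ∃ P : ℚ[X], ∀ (ℓ : ℕ) [Fact ℓ.Prime], ℓ ≠ p → ∀ φ, IsFrobenius deg H φ →
    IsLocalFactor deg (V ℓ) H φ (P.map (algebraMap ℚ ℚ_[ℓ]))

section aux

variable {W : Type} [Group W] {deg : W →* Multiplicative ℤ}

theorem fin_fiber (N : Subgroup W) [N.Normal] [N.FiniteIndex] (d : Multiplicative ℤ) :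
    {y : W ⧸ (N ⊓ deg.ker) | dg deg (N ⊓ deg.ker) inf_le_right y = d}.Finite := by
  have hfin : Finite (W ⧸ N) := inferInstance
  let f : W ⧸ (N ⊓ deg.ker) →* W ⧸ N := QuotientGroup.map _ N (MonoidHom.id W) inf_le_left
  refine Set.Finite.of_finite_image (f := f) (Set.toFinite _) ?_
  intro x hx y hy e
  induction x using QuotientGroup.induction_on with
  | H x =>
    induction y using QuotientGroup.induction_on with
    | H y =>
      have h1 : (x : W ⧸ N) = (y : W ⧸ N) := e
      have h2 : deg x = d := hx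
      have h3 : deg y = d := hy
      rw [QuotientGroup.eq] at h1 ⊢
      exact ⟨h1, MonoidHom.mem_ker.2 (by rw [map_mul, map_inv, h2, h3, inv_mul_cancel])⟩

theorem exists_frob (hdeg : Function.Surjective deg) (N : Subgroup W) [N.FiniteIndex]
    (H : Subgroup W) (hNH : N ≤ H) : ∃ φ, IsFrobenius deg H φ := by
  classical
  obtain ⟨g, hg⟩ := hdeg (Multiplicative.ofAdd 1)
  obtain ⟨r, hr, -, hgr⟩ := Subgroup.exists_pow_mem_of_index_ne_zero
    (Subgroup.FiniteIndex.index_ne_zero (H := N)) g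
  have hex : ∃ d : ℕ, 0 < d ∧ ∃ φ ∈ H, (deg φ).toAdd = (d : ℤ) := by
    refine ⟨r, hr, g ^ r, hNH hgr, ?_⟩
    rw [map_pow, hg, toAdd_pow, toAdd_ofAdd, nsmul_eq_mul, mul_one]
  obtain ⟨hd, φ, hφ, hφd⟩ := Nat.find_spec hex
  set d := Nat.find hex with hdd
  refine ⟨φ, hφ, by rw [hφd]; exact_mod_cast hd, fun h hh => ?_⟩
  rw [hφd]
  have h1 : (deg (h * (φ ^ ((deg h).toAdd / (d : ℤ)))⁻¹)).toAdd = (deg h).toAdd % (d : ℤ) := by
    rw [map_mul, map_inv, map_zpow, toAdd_mul, toAdd_inv, toAdd_zpow, hφd, smul_eq_mul,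
      Int.emod_def]
    ring
  have hd' : (0 : ℤ) < (d : ℤ) := by exact_mod_cast hd
  have h2 := Int.emod_nonneg (deg h).toAdd hd'.ne'
  have h3 := Int.emod_lt_of_pos (deg h).toAdd hd'
  refine Int.dvd_of_emod_eq_zero ?_
  by_contra h4
  have h5 : ¬ (((deg h).toAdd % (d : ℤ)).toNat < d ∧ 0 < ((deg h).toAdd % (d : ℤ)).toNat) := by
    rintro ⟨h6, h7⟩
    refine Nat.find_min hex h6 ⟨h7, h * (φ ^ ((deg h).toAdd / (d : ℤ)))⁻¹,
      H.mul_mem hh (H.inv_mem (H.zpow_mem hφ _)), ?_⟩
    rw [h1, Int.toNat_of_nonneg h2]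
  exact h5 ⟨by omega, by omega⟩

theorem frob_deg {H : Subgroup W} {φ φ' : W} (h : IsFrobenius deg H φ) (h' : IsFrobenius deg H φ') :
    deg φ = deg φ' := by
  have h1 := h.2.2 φ' h'.1
  have h2 := h'.2.2 φ h.1
  exact Multiplicative.toAdd.injective (Int.dvd_antisymm h.2.1.le h'.2.1.le h1 h2)

/-- families of `ℓ`-adic numbers -/
abbrev Fam : Type := ∀ x : {ℓ : ℕ // Fact ℓ.Prime}, @Padic x.1 x.2

/-- the family is rational and independent of `ℓ` -/
def QQ (p : ℕ) : AddSubgroup Fam where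
  carrier := {a | ∃ q : ℚ, ∀ (ℓ : ℕ) [h : Fact ℓ.Prime], ℓ ≠ p → a ⟨ℓ, h⟩ = algebraMap ℚ ℚ_[ℓ] q}
  add_mem' := by
    rintro a b ⟨q, hq⟩ ⟨q', hq'⟩
    exact ⟨q + q', fun ℓ _ hℓ => by rw [map_add, ← hq ℓ hℓ, ← hq' ℓ hℓ]; rfl⟩
  zero_mem' := ⟨0, fun ℓ _ hℓ => by rw [map_zero]; rfl⟩
  neg_mem' := by
    rintro a ⟨q, hq⟩
    exact ⟨-q, fun ℓ _ hℓ => by rw [map_neg, ← hq ℓ hℓ]; rfl⟩

variable {n : ℕ} (V : ∀ (ℓ : ℕ) [Fact ℓ.Prime], Representation ℚ_[ℓ] W (Fin n → ℚ_[ℓ]))

/-- the traces on the invariants of `J` -/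
noncomputable def tt (J : Subgroup W) [J.Normal] (y : W ⧸ J) : Fam :=
  fun x => haveI := x.2
    LinearMap.trace ℚ_[x.1] _ ((V x.1).quotientToInvariants J y)

theorem sum_tt (J : Subgroup W) [J.Normal] (F : Finset (W ⧸ J)) (ℓ : ℕ) [h : Fact ℓ.Prime] :
    (∑ y ∈ F, tt V J y) ⟨ℓ, h⟩ =
      ∑ y ∈ F, LinearMap.trace ℚ_[ℓ] _ ((V ℓ).quotientToInvariants J y) := by
  rw [Finset.sum_apply]
  rfl

open Classical in
theorem mem_of_indep {p : ℕ} (hdeg : Function.Surjective deg) (N : Subgroup W) [N.Normal]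
    [N.FiniteIndex] (H : Subgroup W) (hNH : N ≤ H) (hH : Independent deg p V H) {m : ℕ} (hm : 1 ≤ m)
    (S : Finset (W ⧸ (N ⊓ deg.ker)))
    (hS : ∀ y, y ∈ S ↔ dg deg (N ⊓ deg.ker) inf_le_right y = Multiplicative.ofAdd (m : ℤ)) :
    ∑ y ∈ S with y ∈ H.map (QuotientGroup.mk' (N ⊓ deg.ker)), tt V (N ⊓ deg.ker) y ∈ QQ p := by
  obtain ⟨φ, hφ⟩ := exists_frob hdeg N H hNH
  obtain ⟨P, hP⟩ := hH
  obtain ⟨f, hf⟩ : ∃ f : ℕ, (deg φ).toAdd = (f : ℤ) := ⟨_, (Int.toNat_of_nonneg hφ.2.1.le).symm⟩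
  have hf0 : 0 < f := by
    have := hφ.2.1
    rw [hf] at this
    exact_mod_cast this
  by_cases hfm : f ∣ m
  · obtain ⟨i, rfl⟩ := hfm
    have hi : i ≠ 0 := by
      rintro rfl
      rw [mul_zero] at hm
      omega
    obtain ⟨j, rfl⟩ := Nat.exists_eq_add_one_of_ne_zero hi
    refine ⟨(((fin_fiber (deg := deg) N 1).toFinset.filter
      (fun y => y ∈ H.map (QuotientGroup.mk' (N ⊓ deg.ker)))).card : ℚ) * trs P j, ?_⟩
    intro ℓ _ hℓ
    obtain ⟨r, b, A, hA, hPA⟩ := hP ℓ hℓ φ hφ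
    rw [sum_tt, trace_sum deg (N ⊓ deg.ker) inf_le_right (V ℓ) H (inf_le_left.trans hNH)
      (fin_fiber (deg := deg) N 1).toFinset S (fun y => by rw [Set.Finite.mem_toFinset]; rfl) hφ.1
      (i := j + 1) (fun y => by
        rw [hS]
        have : deg φ ^ (j + 1) = Multiplicative.ofAdd (((f * (j + 1) : ℕ)) : ℤ) := by
          apply Multiplicative.toAdd.injective
          rw [toAdd_pow, hf, toAdd_ofAdd, nsmul_eq_mul]
          push_cast
          ring
        rw [this]) b A hA, trs_eq A P hPA.symm j, map_mul, map_natCast]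
  · have h0 : S.filter (fun y => y ∈ H.map (QuotientGroup.mk' (N ⊓ deg.ker))) = ∅ := by
      refine Finset.filter_eq_empty_iff.2 ?_
      rintro y hy ⟨h, hh, rfl⟩
      rw [hS] at hy
      have h1 : deg h = Multiplicative.ofAdd (m : ℤ) := hy
      have h2 := hφ.2.2 h hh
      rw [hf, h1, toAdd_ofAdd] at h2
      exact hfm (by exact_mod_cast h2)
    rw [h0, Finset.sum_empty]
    exact (QQ p).zero_mem

theorem frob_pres {k : Type} [Field k] (ρ : Representation k W (Fin n → k)) {H : Subgroup W}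
    {φ : W} (hφ : φ ∈ H) {x : Fin n → k} (hx : x ∈ inertiaInvariants deg ρ H) :
    ρ φ x ∈ inertiaInvariants deg ρ H := by
  intro g hg h1
  have h2 := hx (φ⁻¹ * g * φ) (H.mul_mem (H.mul_mem (H.inv_mem hφ) hg) hφ) (by
    rw [map_mul, map_mul, map_inv, h1, mul_one, inv_mul_cancel])
  have h3 : g * φ = φ * (φ⁻¹ * g * φ) := by group
  rw [← Module.End.mul_apply, ← map_mul, h3, map_mul, Module.End.mul_apply, h2]

open Classical in
theorem indep_of_mem {p : ℕ} (hdeg : Function.Surjective deg) (N : Subgroup W) [N.Normal]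
    [N.FiniteIndex] (H : Subgroup W) (hNH : N ≤ H)
    (h : ∀ m : ℕ, 1 ≤ m → ∀ S : Finset (W ⧸ (N ⊓ deg.ker)),
      (∀ y, y ∈ S ↔ dg deg (N ⊓ deg.ker) inf_le_right y = Multiplicative.ofAdd (m : ℤ)) →
      ∑ y ∈ S with y ∈ H.map (QuotientGroup.mk' (N ⊓ deg.ker)), tt V (N ⊓ deg.ker) y ∈ QQ p) :
    Independent deg p V H := by
  obtain ⟨φ₀, hφ₀⟩ := exists_frob hdeg N H hNH
  obtain ⟨f, hf⟩ : ∃ f : ℕ, (deg φ₀).toAdd = (f : ℤ) := ⟨_, (Int.toNat_of_nonneg hφ₀.2.1.le).symm⟩
  have hf0 : 0 < f := by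
    have := hφ₀.2.1
    rw [hf] at this
    exact_mod_cast this
  set S0 := (fin_fiber (deg := deg) N 1).toFinset with hS0
  set c : ℕ := (S0.filter (fun y => y ∈ H.map (QuotientGroup.mk' (N ⊓ deg.ker)))).card with hc
  have hc0 : c ≠ 0 := by
    rw [hc, Finset.card_ne_zero]
    refine ⟨1, ?_⟩
    rw [Finset.mem_filter, hS0, Set.Finite.mem_toFinset]
    exact ⟨map_one _, Subgroup.one_mem _⟩
  have h1 : ∀ j : ℕ, ∃ q : ℚ, ∀ (ℓ : ℕ) [hℓ : Fact ℓ.Prime], ℓ ≠ p →
      (∑ y ∈ (fin_fiber (deg := deg) N (Multiplicative.ofAdd ((f * (j + 1) : ℕ) : ℤ))).toFinset with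
        y ∈ H.map (QuotientGroup.mk' (N ⊓ deg.ker)), tt V (N ⊓ deg.ker) y)
          ⟨ℓ, hℓ⟩ = algebraMap ℚ ℚ_[ℓ] q := fun j =>
    h (f * (j + 1)) (Nat.one_le_iff_ne_zero.2 (by positivity)) _
      (fun y => by rw [Set.Finite.mem_toFinset]; rfl)
  choose q hq using h1
  let s : ℕ → ℚ := fun i => q (i - 1) / c
  refine ⟨∑ i ∈ Finset.range (n + 1), monomial i (Tr4.cf s i), ?_⟩
  intro ℓ _ hℓ φ hφ
  let b := Module.finBasis ℚ_[ℓ] (inertiaInvariants deg (V ℓ) H)
  let A : Matrix (Fin (Module.finrank ℚ_[ℓ] (inertiaInvariants deg (V ℓ) H)))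
    (Fin (Module.finrank ℚ_[ℓ] (inertiaInvariants deg (V ℓ) H))) ℚ_[ℓ] :=
    Matrix.of fun i j => b.repr ⟨V ℓ φ (b j), frob_pres (V ℓ) hφ.1 (b j).2⟩ i
  have hA : ∀ j, V ℓ φ (b j : Fin n → ℚ_[ℓ]) = ∑ i, A i j • (b i : Fin n → ℚ_[ℓ]) := by
    intro j
    have h2 := b.sum_repr ⟨V ℓ φ (b j), frob_pres (V ℓ) hφ.1 (b j).2⟩
    have h3 := congrArg (fun x : inertiaInvariants deg (V ℓ) H => (x : Fin n → ℚ_[ℓ])) h2
    simp only [Submodule.coe_sum, Submodule.coe_smul] at h3
    exact h3.symm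
  refine ⟨_, b, A, hA, ?_⟩
  have htr : ∀ j : ℕ, (A ^ (j + 1)).trace = ((s (j + 1) : ℚ) : ℚ_[ℓ]) := by
    intro j
    have h2 := hq j ℓ hℓ
    rw [sum_tt, trace_sum deg (N ⊓ deg.ker) inf_le_right (V ℓ) H (inf_le_left.trans hNH)
      S0 _ (fun y => by rw [hS0, Set.Finite.mem_toFinset]; rfl) hφ.1
      (i := j + 1) (fun y => by
        rw [Set.Finite.mem_toFinset]
        have : deg φ ^ (j + 1) = Multiplicative.ofAdd (((f * (j + 1) : ℕ)) : ℤ) := by
          rw [frob_deg hφ hφ₀]
          apply Multiplicative.toAdd.injective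
          rw [toAdd_pow, hf, toAdd_ofAdd, nsmul_eq_mul]
          push_cast
          ring
        rw [this]
        rfl) b A hA] at h2
    have hc1 : (c : ℚ_[ℓ]) ≠ 0 := by exact_mod_cast hc0
    refine mul_left_cancel₀ hc1 ?_
    rw [h2]
    simp only [s, Nat.add_sub_cancel, Rat.cast_div, Rat.cast_natCast]
    rw [mul_div_cancel₀ _ hc1]
    rfl
  have hcoeff := Tr4.coeff_eq A s htr
  change _ = A.charpolyRev
  refine Polynomial.ext fun i => ?_
  rw [Polynomial.coeff_map, Polynomial.finsetSum_coeff]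
  simp only [Polynomial.coeff_monomial]
  rw [Finset.sum_ite_eq' (Finset.range (n + 1)) i]
  split_ifs with hi
  · rw [hcoeff]
    rfl
  · rw [map_zero]
    symm
    refine Polynomial.coeff_eq_zero_of_natDegree_lt ?_
    refine (Tr4.natDegree_charpolyRev A).trans_lt ?_
    have h5 : Module.finrank ℚ_[ℓ] (inertiaInvariants deg (V ℓ) H) ≤ n := by
      refine (Submodule.finrank_le _).trans ?_
      rw [Module.finrank_fin_fun]
    rw [Finset.mem_range] at hi
    omega

end aux

/-- **Reduction of the independence of `ℓ` of the local factors to cyclic extensions.**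
The local factors over all subgroups `H ≥ N` are rational and independent of `ℓ` if and only if
this holds for the subgroups which are generated by `N` and one element. -/
theorem result {W : Type} [Group W] (deg : W →* Multiplicative ℤ) (hdeg : Function.Surjective deg)
    (N : Subgroup W) [N.Normal] [N.FiniteIndex] {n : ℕ} (p : ℕ)
    (V : ∀ (ℓ : ℕ) [Fact ℓ.Prime], Representation ℚ_[ℓ] W (Fin n → ℚ_[ℓ])) :
    (∀ H : Subgroup W, N ≤ H → Independent deg p V H) ↔
      ∀ g : W, Independent deg p V (N ⊔ Subgroup.zpowers g) := by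
  refine ⟨fun h g => h _ le_sup_left, fun h => ?_⟩
  classical
  intro H hNH
  refine indep_of_mem V hdeg N H hNH fun m hm S hS => ?_
  have hJ : N ⊓ deg.ker ≤ N := inf_le_left
  have hker : (QuotientGroup.mk' (N ⊓ deg.ker)).ker = N ⊓ deg.ker := QuotientGroup.ker_mk' _
  set π := QuotientGroup.mk' (N ⊓ deg.ker) with hπ
  let c : W ⧸ (N ⊓ deg.ker) → Subgroup (W ⧸ (N ⊓ deg.ker)) := fun y =>
    N.map π ⊔ Subgroup.zpowers y
  have hc : ∀ y, ∀ D : Subgroup (W ⧸ (N ⊓ deg.ker)), N.map π ≤ D → (c y ≤ D ↔ y ∈ D) := by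
    intro y D hD
    constructor
    · intro h1
      exact h1 (Subgroup.mem_sup_right (Subgroup.mem_zpowers y))
    · intro h1
      exact sup_le hD (by rwa [Subgroup.zpowers_le])
  have key := core (QQ p) S c (tt V (N ⊓ deg.ker)) (by
    intro x hx
    induction x using QuotientGroup.induction_on with
    | H g =>
      have h1 : (N ⊔ Subgroup.zpowers g).map π = c (g : W ⧸ (N ⊓ deg.ker)) := by
        rw [Subgroup.map_sup, MonoidHom.map_zpowers]
        rfl
      have h2 := mem_of_indep V hdeg N (N ⊔ Subgroup.zpowers g) le_sup_left (h g) hm S hS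
      rw [← hπ, h1] at h2
      have h3 : S.filter (fun y => c y ≤ c (g : W ⧸ (N ⊓ deg.ker))) =
          S.filter (fun y => y ∈ c (g : W ⧸ (N ⊓ deg.ker))) := by
        refine Finset.filter_congr fun y _ => ?_
        exact hc y _ le_sup_left
      rw [h3]
      exact h2) (H.map π)
  have h4 : S.filter (fun y => c y ≤ H.map π) = S.filter (fun y => y ∈ H.map π) := by
    refine Finset.filter_congr fun y _ => ?_
    exact hc y _ (Subgroup.map_mono hNH)
  rw [h4] at key
  exact key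

end Pool.Agent.Results.MP_a3c811_ag.CyclicExtensions
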