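import Pool.Agent.W2helper44.PT.Main

/-!
# Local Euler factors at places of bad reduction, transferred from another motive

Let `K` be a number field (for example `ℚ`) and let `V_ℓ` and `W_ℓ`, for all primes `ℓ`, be the
`ℓ`-adic realisations, in degrees of the same weight `w`, of two motives `M` and `N` over `K`. At
the places `v` outside a finite set the difference `a_v` of the traces of the geometric Frobenius
elements on `V_ℓ` and `W_ℓ` is a rational number which does not depend on `ℓ`, and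
`a_v ^ 2 ≤ C N(v) ^ w` (Deligne; Katz and Messing). Suppose that the traces for `M` and `N` are
close to each other at most places: for a positive integer `d`, the number `d a_v ^ 2` is an
integral multiple of `N(v) ^ w` for `v` in a set of upper density larger than
`1 - 1 / (n ^ 2 + m ^ 2)`, where `n` and `m` are the ranks (for example: the traces are equal at
most places). Suppose that the representations `W_ℓ` are semisimple (nothing of this kind is assumed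
for `V_ℓ`, and nothing is assumed about `V_ℓ` at the exceptional places).

* Let `v` be any finite place, of arbitrary bad reduction for `M` and `N`. If `W` has the
  weight-monodromy property at `v`, with rational traces independent of `ℓ`, then so has `V`, and the
  local factor `det (1 - F_v T | V_ℓ ^ I_v)` of `M` at `v` is a polynomial with rational coefficients
  which does not depend on `ℓ`. (The property of `W` is known for example for `H ^ 1` of an abelian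
  variety at all places, and at the places of good reduction in general.)
* If the `V_ℓ` are semisimple too, then at every finite place `v`, without any assumption about the
  reduction or weights, the quotient of the local factors of `M` and `N` is a power series with
  rational coefficients which does not depend on `ℓ`. So the local factor of `M` at `v` is rational
  and independent of `ℓ` if and only if the local factor of `N` is, and the weight-monodromy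
  property at `v` holds for both or for none.

Proof. The difference of the traces on `V_ℓ (w / 2)` and `W_ℓ (w / 2)` is constant on the cosets of
an open normal subgroup `U`, which is independent of `ℓ` (starting result). So over `U` the classes
of `V_ℓ + m η` and `W_ℓ + n η`, with `η` a power of the cyclotomic character, agree in the
Grothendieck group. Injectivity of a power of the monodromy operator on a weight space passes from a
semisimple module to every module with the same traces, and the weights of the Frobenius elements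
are compared by projectors which are rational polynomials. For a pure family the trace of a
Frobenius element on the invariants of a small inertia group is a combination of traces of
polynomials in this element, which gives the local factor. In the semisimple case the projector onto
the inertia invariants belongs to the group algebra, and by the cyclic symmetry of the traces the
difference of the traces on the invariants is an average of values of the difference.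
-/

set_option autoImplicit false

namespace Pool.Agent.Results.MP_a3c811_ag.TransferAtBadPlaces

open NumberField IsDedekindDomain Filter Matrix Polynomial

/-- the absolute Galois group of the field `K`, with the Krull topology -/
abbrev AbsGal (K : Type) [Field K] : Type := Gal(AlgebraicClosure K/K)

section
variable {K : Type} [Field K]

/-- `g` belongs to the inertia group at the ideal `Q` of the ring of all algebraic integers. -/
def InInertia (Q : Ideal (𝓞 (AlgebraicClosure K))) (g : AbsGal K) : Prop :=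
  ∀ x : 𝓞 (AlgebraicClosure K), g • x - x ∈ Q

/-- `g` acts as `x ↦ x ^ q` on the residue field of `Q`. If `q` is the number of elements of the
residue field of the place below `Q`, then `g` is an arithmetic Frobenius element at `Q`. -/
def FrobeniusAt (Q : Ideal (𝓞 (AlgebraicClosure K))) (q : ℕ) (g : AbsGal K) : Prop :=
  ∀ x : 𝓞 (AlgebraicClosure K), g • x - x ^ q ∈ Q

/-- `Q` is a maximal ideal of the ring of all algebraic integers which lies above the finite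
place `v` of `K`. -/
def LiesAbove [NumberField K] (v : HeightOneSpectrum (𝓞 K))
    (Q : Ideal (𝓞 (AlgebraicClosure K))) : Prop :=
  Q.IsMaximal ∧ Q.comap (algebraMap (𝓞 K) (𝓞 (AlgebraicClosure K))) = v.asIdeal

/-- the matrix of `g` -/
noncomputable def mat {F : Type} [Field F] {n : ℕ} (ρ : AbsGal K →* GL (Fin n) F) (g : AbsGal K) :
    Matrix (Fin n) (Fin n) F :=
  (ρ g : GL (Fin n) F)

/-- the vectors which are fixed by the inertia group at `Q` -/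
def invariants {F : Type} [Field F] {n : ℕ} (ρ : AbsGal K →* GL (Fin n) F)
    (Q : Ideal (𝓞 (AlgebraicClosure K))) : Submodule F (Fin n → F) where
  carrier := {x | ∀ g, InInertia Q g → mat ρ g *ᵥ x = x}
  add_mem' := by
    intro x y hx hy g hg
    rw [Matrix.mulVec_add, hx g hg, hy g hg]
  zero_mem' := by
    intro g _
    rw [Matrix.mulVec_zero]
  smul_mem' := by
    intro c x hx g hg
    rw [Matrix.mulVec_smul, hx g hg]

/-- `f` is the polynomial `det (1 - g T)` of `g` on the invariants of the inertia group at `Q`: if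
`A` is the matrix of `g` with respect to a basis `b` of the invariants then `f = det (1 - A T)`. -/
def IsLocalFactor {F : Type} [Field F] {n : ℕ} (ρ : AbsGal K →* GL (Fin n) F)
    (Q : Ideal (𝓞 (AlgebraicClosure K))) (g : AbsGal K) (f : F[X]) : Prop :=
  ∃ (m : ℕ) (b : Module.Basis (Fin m) F (invariants ρ Q)) (A : Matrix (Fin m) (Fin m) F),
    (∀ j, mat ρ g *ᵥ (b j : Fin n → F) = ∑ i, A i j • (b i : Fin n → F)) ∧
    f = (1 - (X : F[X]) • A.map C).det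

/-- The representation is semisimple: every stable subspace has a stable complement. -/
def Semisimple {F : Type} [Field F] {n : ℕ} (ρ : AbsGal K →* GL (Fin n) F) : Prop :=
  ∀ S : Submodule F (Fin n → F), (∀ g, ∀ x ∈ S, mat ρ g *ᵥ x ∈ S) →
    ∃ S' : Submodule F (Fin n → F), (∀ g, ∀ x ∈ S', mat ρ g *ᵥ x ∈ S') ∧ IsCompl S S'

/-- the kernel of `h(A)` -/
noncomputable def kernelOf {F : Type} [Field F] [CharZero F] {n : ℕ} (A : Matrix (Fin n) (Fin n) F)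
    (h : ℚ[X]) : Submodule F (Fin n → F) :=
  LinearMap.ker (toLin' (aeval A (h.map (algebraMap ℚ F))))

/-- **The family `W` is pure of weight `w` at the finite place `v`, independently of `ℓ`.**

Let `Q` lie above `v` and let `g` be an element of the Galois group which acts as `x ↦ x ^ (q ^ k)`
on the residue field of `Q`, where `k ≥ 1` and `q` is the number of elements of the residue field
of `v` (so `g⁻¹` is an element of positive valuation of the Weil group at `v`). The conditions are: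

* for `ℓ` not below `v`, an open subgroup of the inertia group acts unipotently (this always holds,
  by Grothendieck's monodromy theorem);
* the trace of `g⁻¹` is a rational number which does not depend on `ℓ`;
* the weight-monodromy property: there are polynomials `h i` over `ℚ` (`i ∈ ℤ`) which do not depend
  on `ℓ`, such that the complex roots of `h i` have absolute value `(q ^ k) ^ (i / 2)` and a finite
  product of these polynomials annihilates `g⁻¹`; the kernel of `(h i)(g⁻¹)` is then the part of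
  weight `i`. The parts of weight `w + i` and `w - i`, for `i ≥ 0`, have the same dimension, and the
  `i`-th power of the monodromy operator is injective on the part of weight `w + i`: every open
  subgroup of the inertia group contains an element `τ` such that `(τ - 1) ^ i` is injective on this
  part (the monodromy operator is, up to a scalar, the logarithm of such a `τ`). So the `i`-th power
  of the monodromy operator is an isomorphism from the part of weight `w + i` onto the part of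
  weight `w - i`. -/
def PureAt [NumberField K] {m : ℕ} (W : ∀ (ℓ : ℕ) [Fact ℓ.Prime], AbsGal K →* GL (Fin m) ℚ_[ℓ])
    (w : ℤ) (v : HeightOneSpectrum (𝓞 K)) : Prop :=
  ∀ Q, LiesAbove v Q →
    (∀ (ℓ : ℕ) [Fact ℓ.Prime], (ℓ : 𝓞 K) ∉ v.asIdeal → ∃ H : Subgroup (AbsGal K),
      IsOpen (H : Set (AbsGal K)) ∧ ∀ τ ∈ H, InInertia Q τ → IsNilpotent (mat (W ℓ) τ - 1)) ∧
    ∀ k : ℕ, 1 ≤ k → ∀ g, FrobeniusAt Q (Ideal.absNorm v.asIdeal ^ k) g →
      (∃ t : ℚ, ∀ (ℓ : ℕ) [Fact ℓ.Prime], (ℓ : 𝓞 K) ∉ v.asIdeal →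
        (mat (W ℓ) g⁻¹).trace = (t : ℚ_[ℓ])) ∧
      ∃ (s : Finset ℤ) (h : ℤ → ℚ[X]),
        (∀ i, ∀ z : ℂ, ((h i).map (algebraMap ℚ ℂ)).IsRoot z →
          ‖z‖ ^ 2 = ((Ideal.absNorm v.asIdeal : ℝ) ^ k) ^ i) ∧
        ∀ (ℓ : ℕ) [Fact ℓ.Prime], (ℓ : 𝓞 K) ∉ v.asIdeal →
          kernelOf (mat (W ℓ) g⁻¹) (∏ i ∈ s, h i) = ⊤ ∧
          (∀ i : ℕ, Module.finrank ℚ_[ℓ] (kernelOf (mat (W ℓ) g⁻¹) (h (w + i))) =
            Module.finrank ℚ_[ℓ] (kernelOf (mat (W ℓ) g⁻¹) (h (w - i)))) ∧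
          ∀ H : Subgroup (AbsGal K), IsOpen (H : Set (AbsGal K)) → ∀ i : ℕ,
            ∃ τ ∈ H, InInertia Q τ ∧ ∀ x ∈ kernelOf (mat (W ℓ) g⁻¹) (h (w + i)),
              (mat (W ℓ) τ - 1) ^ i *ᵥ x = 0 → x = 0

end

section aux

open Pool.Agent.W2helper44.PT Pool.Agent.R401.Img

variable {K : Type} [Field K] [NumberField K]

theorem hcast (L : Type) [Field L] [CharZero L] (f : ℚ →+* L) : Rat.castHom L = f :=
  Subsingleton.elim _ _

theorem mem_kernelOf {F : Type} [Field F] [CharZero F] {n : ℕ} (A : Matrix (Fin n) (Fin n) F)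
    (h : ℚ[X]) (x : Fin n → F) : x ∈ kernelOf A h ↔ ev A h *ᵥ x = 0 := by
  rw [kernelOf, LinearMap.mem_ker, Matrix.toLin'_apply, ← hcast F (algebraMap ℚ F)]
  rfl

theorem kernelOf_eq {F : Type} [Field F] [CharZero F] {n : ℕ} (A : Matrix (Fin n) (Fin n) F)
    (h : ℚ[X]) : kernelOf A h = LinearMap.ker (toLin' (ev A h)) := by
  ext x
  rw [mem_kernelOf, ker_eq]

theorem kernelOf_top {F : Type} [Field F] [CharZero F] {n : ℕ} (A : Matrix (Fin n) (Fin n) F)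
    (h : ℚ[X]) : kernelOf A h = ⊤ ↔ ev A h = 0 := by
  rw [kernelOf_eq, LinearMap.ker_eq_top]
  exact map_eq_zero_iff _ Matrix.toLin'.injective

theorem pureAt_iff {m : ℕ} (W : ∀ (ℓ : ℕ) [Fact ℓ.Prime], AbsGal K →* GL (Fin m) ℚ_[ℓ])
    (w : ℤ) (v : HeightOneSpectrum (𝓞 K)) :
    PureAt W w v ↔ ∀ Q, LiesAbove v Q → PU W w (Ideal.absNorm v.asIdeal) Q := by
  unfold PureAt PU
  refine forall₂_congr fun Q hQ => ?_
  have hQℓ : ∀ ℓ : ℕ, (ℓ : 𝓞 (AlgebraicClosure K)) ∈ Q ↔ (ℓ : 𝓞 K) ∈ v.asIdeal := by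
    intro ℓ
    rw [← hQ.2, Ideal.mem_comap, map_natCast]
  simp only [hQℓ]
  constructor
  · rintro ⟨h1, h2⟩
    refine ⟨h1, fun j hj g hg => (h2 j hj g hg).1, fun j hj g hg => ?_⟩
    obtain ⟨-, s, h, h3, h4⟩ := h2 j hj g hg
    refine ⟨s, h, fun i z hz => ?_, fun ℓ _ hℓ => ?_⟩
    · have h5 := h3 i z (by
        rw [IsRoot.def, eval_map_algebraMap]
        exact hz)
      rw [h5]
      push_cast
      rfl
    · obtain ⟨ha, hb, hc⟩ := h4 ℓ hℓ
      refine ⟨(kernelOf_top _ _).1 ha, fun i => ?_, fun H hH i => ?_⟩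
      · have h5 := hb i
        rw [kernelOf_eq, kernelOf_eq] at h5
        exact h5
      · obtain ⟨τ, hτ, hτI, hτx⟩ := hc H hH i
        exact ⟨τ, hτ, hτI, fun x hx => hτx x ((mem_kernelOf _ _ _).2 hx)⟩
  · rintro ⟨h1, h2, h3⟩
    refine ⟨h1, fun j hj g hg => ⟨h2 j hj g hg, ?_⟩⟩
    obtain ⟨s, h, h4, h5⟩ := h3 j hj g hg
    refine ⟨s, h, fun i z hz => ?_, fun ℓ _ hℓ => ?_⟩
    · have h6 := h4 i z (by
        rw [IsRoot.def, eval_map_algebraMap] at hz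
        exact hz)
      rw [h6]
      push_cast
      rfl
    · obtain ⟨ha, hb, hc⟩ := h5 ℓ hℓ
      refine ⟨(kernelOf_top _ _).2 ha, fun i => ?_, fun H hH i => ?_⟩
      · rw [kernelOf_eq, kernelOf_eq]
        exact hb i
      · obtain ⟨τ, hτ, hτI, hτx⟩ := hc H hH i
        exact ⟨τ, hτ, hτI, fun x hx => hτx x ((mem_kernelOf _ _ _).1 hx)⟩

end aux

/-- **The local factor of `V` at `v` is a rational polynomial which does not depend on `ℓ`**: there
is a polynomial `P` over `ℚ` such that `det (1 - F_v T | V_ℓ ^ I_v) = P` for all `ℓ` not below `v`,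
for all choices of the inertia group and of the geometric Frobenius element `F_v = g`. -/
def FactorIndependent {K : Type} [Field K] [NumberField K] {n : ℕ}
    (V : ∀ (ℓ : ℕ) [Fact ℓ.Prime], AbsGal K →* GL (Fin n) ℚ_[ℓ])
    (v : HeightOneSpectrum (𝓞 K)) : Prop :=
  ∃ P : ℚ[X], ∀ Q, LiesAbove v Q → ∀ g, FrobeniusAt Q (Ideal.absNorm v.asIdeal) g⁻¹ →
    ∀ (ℓ : ℕ) [Fact ℓ.Prime], (ℓ : 𝓞 K) ∉ v.asIdeal → ∀ f : ℚ_[ℓ][X],
      IsLocalFactor (V ℓ) Q g f ↔ f = P.map (algebraMap ℚ ℚ_[ℓ])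

section conj

variable {K : Type} [Field K]

theorem mat_mul {F : Type} [Field F] {n : ℕ} (ρ : AbsGal K →* GL (Fin n) F) (g h : AbsGal K) :
    mat ρ (g * h) = mat ρ g * mat ρ h := Pool.Agent.R401.Img.mt_mul ρ g h

theorem mat_one {F : Type} [Field F] {n : ℕ} (ρ : AbsGal K →* GL (Fin n) F) :
    mat ρ 1 = 1 := by
  unfold mat
  rw [map_one]
  rfl

variable {Q Q' : Ideal (𝓞 (AlgebraicClosure K))} {γ : AbsGal K}

theorem inertia_conj (hγ : ∀ x, x ∈ Q ↔ γ • x ∈ Q') {τ : AbsGal K} (hτ : InInertia Q' τ) :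
    InInertia Q (γ⁻¹ * τ * γ) := by
  intro x
  rw [hγ, smul_sub]
  have h1 := hτ (γ • x)
  rwa [mul_smul, mul_smul, smul_inv_smul]

theorem inertia_conj' (hγ : ∀ x, x ∈ Q ↔ γ • x ∈ Q') {τ : AbsGal K} (hτ : InInertia Q τ) :
    InInertia Q' (γ * τ * γ⁻¹) := by
  intro x
  have h1 := (hγ _).1 (hτ (γ⁻¹ • x))
  rwa [smul_sub, smul_inv_smul, ← mul_smul, ← mul_smul] at h1

theorem frob_conj (hγ : ∀ x, x ∈ Q ↔ γ • x ∈ Q') {q : ℕ} {g : AbsGal K}
    (hg : FrobeniusAt Q q g) : FrobeniusAt Q' q (γ * g * γ⁻¹) := by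
  intro x
  have h1 := (hγ _).1 (hg (γ⁻¹ • x))
  rwa [smul_sub, smul_pow', smul_inv_smul, ← mul_smul, ← mul_smul] at h1

theorem inv_map {F : Type} [Field F] {n : ℕ} (ρ : AbsGal K →* GL (Fin n) F)
    (hγ : ∀ x, x ∈ Q ↔ γ • x ∈ Q') {x : Fin n → F} (hx : x ∈ invariants ρ Q) :
    mat ρ γ *ᵥ x ∈ invariants ρ Q' := by
  intro τ hτ
  have h1 := hx _ (inertia_conj hγ hτ)
  have h2 : τ * γ = γ * (γ⁻¹ * τ * γ) := by group
  rw [Matrix.mulVec_mulVec, ← mat_mul, h2, mat_mul, ← Matrix.mulVec_mulVec, h1]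

theorem inv_map' {F : Type} [Field F] {n : ℕ} (ρ : AbsGal K →* GL (Fin n) F)
    (hγ : ∀ x, x ∈ Q ↔ γ • x ∈ Q') {x : Fin n → F} (hx : x ∈ invariants ρ Q') :
    mat ρ γ⁻¹ *ᵥ x ∈ invariants ρ Q := by
  intro τ hτ
  have h1 := hx _ (inertia_conj' hγ hτ)
  have h2 : τ * γ⁻¹ = γ⁻¹ * (γ * τ * γ⁻¹) := by group
  rw [Matrix.mulVec_mulVec, ← mat_mul, h2, mat_mul, ← Matrix.mulVec_mulVec, h1]

/-- the isomorphism between the invariants -/
noncomputable def invEquiv {F : Type} [Field F] {n : ℕ} (ρ : AbsGal K →* GL (Fin n) F)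
    (hγ : ∀ x, x ∈ Q ↔ γ • x ∈ Q') : invariants ρ Q ≃ₗ[F] invariants ρ Q' :=
  LinearEquiv.ofLinearMap
    ((Matrix.toLin' (mat ρ γ)).restrict fun x hx => by
      rw [Matrix.toLin'_apply]
      exact inv_map ρ hγ hx)
    ((Matrix.toLin' (mat ρ γ⁻¹)).restrict fun x hx => by
      rw [Matrix.toLin'_apply]
      exact inv_map' ρ hγ hx)
    (by
      refine LinearMap.ext fun x => Subtype.ext ?_
      change Matrix.toLin' (mat ρ γ) (Matrix.toLin' (mat ρ γ⁻¹) x) = x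
      rw [Matrix.toLin'_apply, Matrix.toLin'_apply, Matrix.mulVec_mulVec, ← mat_mul,
        mul_inv_cancel, mat_one, Matrix.one_mulVec])
    (by
      refine LinearMap.ext fun x => Subtype.ext ?_
      change Matrix.toLin' (mat ρ γ⁻¹) (Matrix.toLin' (mat ρ γ) x) = x
      rw [Matrix.toLin'_apply, Matrix.toLin'_apply, Matrix.mulVec_mulVec, ← mat_mul,
        inv_mul_cancel, mat_one, Matrix.one_mulVec])

theorem invEquiv_apply {F : Type} [Field F] {n : ℕ} (ρ : AbsGal K →* GL (Fin n) F)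
    (hγ : ∀ x, x ∈ Q ↔ γ • x ∈ Q') (x : invariants ρ Q) :
    (invEquiv ρ hγ x : Fin n → F) = mat ρ γ *ᵥ (x : Fin n → F) := by
  rw [← Matrix.toLin'_apply]
  rfl

theorem factor_conj {F : Type} [Field F] {n : ℕ} (ρ : AbsGal K →* GL (Fin n) F)
    (hγ : ∀ x, x ∈ Q ↔ γ • x ∈ Q') {g : AbsGal K} {f : F[X]} (hf : IsLocalFactor ρ Q g f) :
    IsLocalFactor ρ Q' (γ * g * γ⁻¹) f := by
  obtain ⟨m, b, A, hA, rfl⟩ := hf
  refine ⟨m, b.map (invEquiv ρ hγ), A, fun j => ?_, rfl⟩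
  have h1 := congrArg (fun x => mat ρ γ *ᵥ x) (hA j)
  simp only [Matrix.mulVec_sum, Matrix.mulVec_smul] at h1
  have h2 : γ * g * γ⁻¹ * γ = γ * g := by group
  simp only [Module.Basis.map_apply, invEquiv_apply]
  rw [← h1, Matrix.mulVec_mulVec, Matrix.mulVec_mulVec, ← mat_mul, ← mat_mul, h2]

theorem factor_frob {F : Type} [Field F] {n : ℕ} (ρ : AbsGal K →* GL (Fin n) F) {q : ℕ}
    {g g' : AbsGal K} (hg : FrobeniusAt Q q g⁻¹) (hg' : FrobeniusAt Q q g'⁻¹) {f : F[X]}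
    (hf : IsLocalFactor ρ Q g f) : IsLocalFactor ρ Q g' f := by
  obtain ⟨m, b, A, hA, rfl⟩ := hf
  refine ⟨m, b, A, fun j => ?_, rfl⟩
  rw [← hA]
  have h1 : InInertia Q (g⁻¹ * g') := by
    intro x
    have h2 := Q.sub_mem (hg (g' • x)) (hg' (g' • x))
    rw [inv_smul_smul] at h2
    rw [mul_smul]
    have h3 : g⁻¹ • g' • x - (g' • x) ^ q - (x - (g' • x) ^ q) = g⁻¹ • g' • x - x := by abel
    rwa [h3] at h2
  have h2 := (b j).2 _ h1
  have h3 : g' = g * (g⁻¹ * g') := by group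
  rw [h3, mat_mul, ← Matrix.mulVec_mulVec, h2]

/-- The local factor does not depend on the choices. -/
theorem factor_choice [NumberField K] {F : Type} [Field F] {n : ℕ} (ρ : AbsGal K →* GL (Fin n) F)
    {v : HeightOneSpectrum (𝓞 K)} (hQ : LiesAbove v Q) (hQ' : LiesAbove v Q') {g g' : AbsGal K}
    (hg : FrobeniusAt Q (Ideal.absNorm v.asIdeal) g⁻¹)
    (hg' : FrobeniusAt Q' (Ideal.absNorm v.asIdeal) g'⁻¹) {f : F[X]}
    (hf : IsLocalFactor ρ Q g f) : IsLocalFactor ρ Q' g' f := by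
  have := hQ.1
  have := hQ'.1
  obtain ⟨γ, hγ⟩ := Pool.Agent.W352.ChAbs.exists_smul Q Q' (hQ.2.trans hQ'.2.symm)
  have h1 := factor_conj ρ hγ hf
  have h2 := frob_conj hγ hg
  have h3 : γ * g⁻¹ * γ⁻¹ = (γ * g * γ⁻¹)⁻¹ := by group
  rw [h3] at h2
  exact factor_frob ρ h2 hg' h1

end conj

section aux2

open Pool.Agent.W2helper44.PT Pool.Agent.R401.Img Pool.Agent.R401

variable {K : Type} [Field K] [NumberField K]

theorem two_le_norm (v : HeightOneSpectrum (𝓞 K)) : 2 ≤ Ideal.absNorm v.asIdeal := by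
  have h0 : Ideal.absNorm v.asIdeal ≠ 0 := fun h0 => v.ne_bot (Ideal.absNorm_eq_zero_iff.1 h0)
  have h1 : Ideal.absNorm v.asIdeal ≠ 1 := fun h1 =>
    v.isPrime.ne_top (Ideal.absNorm_eq_one_iff.1 h1)
  omega

theorem exists_factor {n : ℕ} {v : HeightOneSpectrum (𝓞 K)} (ℓ : ℕ) [Fact ℓ.Prime]
    (ρ : AbsGal K →* GL (Fin n) ℚ_[ℓ]) {Q : Ideal (𝓞 (AlgebraicClosure K))} {g : AbsGal K}
    (hg : FrobeniusAt Q (Ideal.absNorm v.asIdeal) g⁻¹) : ∃ f, IsLocalFactor ρ Q g f := by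
  obtain ⟨m, b, A, hA⟩ := Tr6.exists_basis (I := invariants ρ Q) ρ (two_le_norm v) hg
    (fun x => Iff.rfl)
  rw [inv_inv] at hA
  exact ⟨_, m, b, A, hA, rfl⟩

theorem factor_of_one {n : ℕ} {V : ∀ (ℓ : ℕ) [Fact ℓ.Prime], AbsGal K →* GL (Fin n) ℚ_[ℓ]}
    {v : HeightOneSpectrum (𝓞 K)} {Q : Ideal (𝓞 (AlgebraicClosure K))} (hQ : LiesAbove v Q)
    {g : AbsGal K} (hg : FrobeniusAt Q (Ideal.absNorm v.asIdeal) g⁻¹) (P : ℚ[X])
    (h : ∀ (ℓ : ℕ) [Fact ℓ.Prime], (ℓ : 𝓞 K) ∉ v.asIdeal → ∀ f : ℚ_[ℓ][X],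
      IsLocalFactor (V ℓ) Q g f → f = P.map (algebraMap ℚ ℚ_[ℓ])) : FactorIndependent V v := by
  refine ⟨P, fun Q' hQ' g' hg' ℓ _ hℓ f => ⟨fun hf => ?_, ?_⟩⟩
  · exact h ℓ hℓ f (factor_choice (V ℓ) hQ' hQ hg' hg hf)
  · rintro rfl
    obtain ⟨f, hf⟩ := exists_factor (v := v) ℓ (V ℓ) hg
    rw [← h ℓ hℓ f hf]
    exact factor_choice (V ℓ) hQ hQ' hg hg' hf

theorem factor_of_pure {n : ℕ} (V : ∀ (ℓ : ℕ) [Fact ℓ.Prime], AbsGal K →* GL (Fin n) ℚ_[ℓ])
    (hV : ∀ (ℓ : ℕ) [Fact ℓ.Prime], Continuous (V ℓ)) {w : ℤ} {v : HeightOneSpectrum (𝓞 K)}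
    (h : PureAt V w v) : FactorIndependent V v := by
  by_cases hex : ∃ Q, LiesAbove v Q ∧ ∃ g, FrobeniusAt Q (Ideal.absNorm v.asIdeal) g⁻¹
  swap
  · exact ⟨0, fun Q hQ g hg => absurd ⟨Q, hQ, g, hg⟩ hex⟩
  obtain ⟨Q, hQ, g, hg⟩ := hex
  have hQℓ : ∀ ℓ : ℕ, (ℓ : 𝓞 (AlgebraicClosure K)) ∈ Q ↔ (ℓ : 𝓞 K) ∈ v.asIdeal := by
    intro ℓ
    rw [← hQ.2, Ideal.mem_comap, map_natCast]
  have hI : ∀ (ℓ : ℕ) [Fact ℓ.Prime] (x : Fin n → ℚ_[ℓ]), x ∈ invariants (V ℓ) Q ↔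
      ∀ τ, Pool.Agent.W569.FM.InInertia Q τ → mt (V ℓ) τ *ᵥ x = x :=
    fun ℓ _ x => Iff.rfl
  obtain ⟨P, hP⟩ := pure_loc V hV hQ.1 (two_le_norm v) hg ((pureAt_iff V w v).1 h Q hQ)
    (fun ℓ _ => invariants (V ℓ) Q) hI
  rw [inv_inv] at hP
  refine factor_of_one hQ hg P ?_
  rintro ℓ _ hℓ f ⟨m, b, A, hA, rfl⟩
  have hℓQ : (ℓ : 𝓞 (AlgebraicClosure K)) ∉ Q := fun h' => hℓ ((hQℓ ℓ).1 h')
  rw [← hcast ℚ_[ℓ] (algebraMap ℚ ℚ_[ℓ])]
  exact hP ℓ hℓQ m b A hA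

theorem factor_iff_aux {n m : ℕ} (V : ∀ (ℓ : ℕ) [Fact ℓ.Prime], AbsGal K →* GL (Fin n) ℚ_[ℓ])
    (W : ∀ (ℓ : ℕ) [Fact ℓ.Prime], AbsGal K →* GL (Fin m) ℚ_[ℓ]) {v : HeightOneSpectrum (𝓞 K)}
    (h : ∀ Q, LiesAbove v Q → ∀ g, FrobeniusAt Q (Ideal.absNorm v.asIdeal) g⁻¹ →
      ∃ R : PowerSeries ℚ, PowerSeries.coeff 0 R = 1 ∧
        ∀ (ℓ : ℕ) [Fact ℓ.Prime], (ℓ : 𝓞 K) ∉ v.asIdeal →
        ∀ f₁ f₂, IsLocalFactor (V ℓ) Q g f₁ → IsLocalFactor (W ℓ) Q g f₂ →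
          (f₁ : PowerSeries ℚ_[ℓ]) = R.map (algebraMap ℚ ℚ_[ℓ]) * (f₂ : PowerSeries ℚ_[ℓ]))
    (hW : FactorIndependent W v) : FactorIndependent V v := by
  by_cases hex : ∃ Q, LiesAbove v Q ∧ ∃ g, FrobeniusAt Q (Ideal.absNorm v.asIdeal) g⁻¹
  swap
  · exact ⟨0, fun Q hQ g hg => absurd ⟨Q, hQ, g, hg⟩ hex⟩
  obtain ⟨Q, hQ, g, hg⟩ := hex
  obtain ⟨R, -, hR⟩ := h Q hQ g hg
  obtain ⟨P, hP⟩ := hW
  have hP := hP Q hQ g hg
  have hQℓ : ∀ ℓ : ℕ, (ℓ : 𝓞 (AlgebraicClosure K)) ∈ Q ↔ (ℓ : 𝓞 K) ∈ v.asIdeal := by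
    intro ℓ
    rw [← hQ.2, Ideal.mem_comap, map_natCast]
  obtain ⟨ℓ₀, hℓ₀, hℓ₀P⟩ := Tr6.exists_prime_not_mem hQ.1
  have : Fact ℓ₀.Prime := ⟨hℓ₀⟩
  have key : ∀ (ℓ : ℕ) [Fact ℓ.Prime], (ℓ : 𝓞 K) ∉ v.asIdeal → ∀ f₁,
      IsLocalFactor (V ℓ) Q g f₁ → ∀ k, f₁.coeff k =
        algebraMap ℚ ℚ_[ℓ] (PowerSeries.coeff k (R * (P : PowerSeries ℚ))) := by
    intro ℓ _ hℓ f₁ hf₁ k
    have h1 := hR ℓ hℓ f₁ _ hf₁ ((hP ℓ hℓ _).2 rfl)
    have h2 := congrArg (PowerSeries.coeff k) h1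
    rw [Polynomial.coeff_coe] at h2
    rw [h2, ← PowerSeries.coeff_map, map_mul (PowerSeries.map (algebraMap ℚ ℚ_[ℓ])),
      Polynomial.polynomial_map_coe]
  obtain ⟨f₀, hf₀⟩ := exists_factor (v := v) ℓ₀ (V ℓ₀) hg
  have h3 := key ℓ₀ (fun h' => hℓ₀P ((hQℓ ℓ₀).2 h')) f₀ hf₀
  have hzero : ∀ k, f₀.natDegree < k →
      PowerSeries.coeff k (R * (P : PowerSeries ℚ)) = 0 := by
    intro k hk
    have h4 := h3 k
    rw [coeff_eq_zero_of_natDegree_lt hk] at h4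
    exact (map_eq_zero (algebraMap ℚ ℚ_[ℓ₀])).1 h4.symm
  refine factor_of_one hQ hg (PowerSeries.trunc (f₀.natDegree + 1)
    (R * (P : PowerSeries ℚ))) ?_
  intro ℓ _ hℓ f₁ hf₁
  refine Polynomial.ext fun k => ?_
  rw [key ℓ hℓ f₁ hf₁, Polynomial.coeff_map, PowerSeries.coeff_trunc]
  split_ifs with hk
  · rfl
  · rw [hzero k (by omega)]

/-- the quotient does not depend on the choices -/
theorem quot_choice {n m : ℕ} (V : ∀ (ℓ : ℕ) [Fact ℓ.Prime], AbsGal K →* GL (Fin n) ℚ_[ℓ])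
    (W : ∀ (ℓ : ℕ) [Fact ℓ.Prime], AbsGal K →* GL (Fin m) ℚ_[ℓ]) {v : HeightOneSpectrum (𝓞 K)}
    (h : ∀ Q, LiesAbove v Q → ∀ g, FrobeniusAt Q (Ideal.absNorm v.asIdeal) g⁻¹ →
      ∃ R : PowerSeries ℚ, PowerSeries.coeff 0 R = 1 ∧
        ∀ (ℓ : ℕ) [Fact ℓ.Prime], (ℓ : 𝓞 K) ∉ v.asIdeal →
        ∀ f₁ f₂, IsLocalFactor (V ℓ) Q g f₁ → IsLocalFactor (W ℓ) Q g f₂ →
          (f₁ : PowerSeries ℚ_[ℓ]) = R.map (algebraMap ℚ ℚ_[ℓ]) * (f₂ : PowerSeries ℚ_[ℓ])) :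
    ∃ R : PowerSeries ℚ, PowerSeries.coeff 0 R = 1 ∧
      ∀ Q, LiesAbove v Q → ∀ g, FrobeniusAt Q (Ideal.absNorm v.asIdeal) g⁻¹ →
        ∀ (ℓ : ℕ) [Fact ℓ.Prime], (ℓ : 𝓞 K) ∉ v.asIdeal →
        ∀ f₁ f₂, IsLocalFactor (V ℓ) Q g f₁ → IsLocalFactor (W ℓ) Q g f₂ →
          (f₁ : PowerSeries ℚ_[ℓ]) = R.map (algebraMap ℚ ℚ_[ℓ]) * (f₂ : PowerSeries ℚ_[ℓ]) := by
  by_cases hex : ∃ Q, LiesAbove v Q ∧ ∃ g, FrobeniusAt Q (Ideal.absNorm v.asIdeal) g⁻¹
  swap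
  · exact ⟨1, by rw [PowerSeries.coeff_one, if_pos rfl],
      fun Q hQ g hg => absurd ⟨Q, hQ, g, hg⟩ hex⟩
  obtain ⟨Q, hQ, g, hg⟩ := hex
  obtain ⟨R, hR0, hR⟩ := h Q hQ g hg
  exact ⟨R, hR0, fun Q' hQ' g' hg' ℓ _ hℓ f₁ f₂ h1 h2 => hR ℓ hℓ f₁ f₂
    (factor_choice (V ℓ) hQ' hQ hg' hg h1) (factor_choice (W ℓ) hQ' hQ hg' hg h2)⟩

end aux2

/-- **Transfer of the weight-monodromy property and of local Euler factors at bad places.** -/
theorem result {K : Type} [Field K] [NumberField K] {n m : ℕ}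
    (V : ∀ (ℓ : ℕ) [Fact ℓ.Prime], AbsGal K →* GL (Fin n) ℚ_[ℓ])
    (hV : ∀ (ℓ : ℕ) [Fact ℓ.Prime], Continuous (V ℓ))
    (W : ∀ (ℓ : ℕ) [Fact ℓ.Prime], AbsGal K →* GL (Fin m) ℚ_[ℓ])
    (hW : ∀ (ℓ : ℕ) [Fact ℓ.Prime], Continuous (W ℓ)) (w : ℤ)
    -- the exceptional places, and the differences of the traces at the other places
    (B : Set (HeightOneSpectrum (𝓞 K))) (hB : B.Finite) (a : HeightOneSpectrum (𝓞 K) → ℚ)
    (htr : ∀ (ℓ : ℕ) [Fact ℓ.Prime], ∀ v, v ∉ B → (ℓ : 𝓞 K) ∉ v.asIdeal → ∀ Q, LiesAbove v Q →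
      ∀ g, FrobeniusAt Q (Ideal.absNorm v.asIdeal) g →
        (mat (V ℓ) g⁻¹).trace - (mat (W ℓ) g⁻¹).trace = (a v : ℚ_[ℓ]))
    (C : ℝ) (hC : ∀ v, v ∉ B → (a v : ℝ) ^ 2 ≤ C * (Ideal.absNorm v.asIdeal : ℝ) ^ w)
    -- most differences are divisible, up to a bounded denominator
    (d : ℕ) (hd : 0 < d) (θ : ℝ) (hθ : θ * ((n : ℝ) ^ 2 + (m : ℝ) ^ 2) < 1)
    (hdiv : ∃ᶠ x : ℕ in atTop, ({v : HeightOneSpectrum (𝓞 K) | Ideal.absNorm v.asIdeal ≤ x ∧
      ¬ ∃ c : ℤ, (d : ℚ) * a v ^ 2 = (Ideal.absNorm v.asIdeal : ℚ) ^ w * c}.ncard : ℝ) ≤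
        θ * Nat.primeCounting x)
    -- the second family is semisimple
    (hss : ∀ (ℓ : ℕ) [Fact ℓ.Prime], Semisimple (W ℓ)) :
    -- transfer at the places where the second family is pure
    (∀ v, PureAt W w v → PureAt V w v ∧ FactorIndependent V v) ∧
    -- the semisimple case: all finite places
    ((∀ (ℓ : ℕ) [Fact ℓ.Prime], Semisimple (V ℓ)) → ∀ v : HeightOneSpectrum (𝓞 K),
      (∃ R : PowerSeries ℚ, PowerSeries.coeff 0 R = 1 ∧
        ∀ Q, LiesAbove v Q → ∀ g, FrobeniusAt Q (Ideal.absNorm v.asIdeal) g⁻¹ →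
          ∀ (ℓ : ℕ) [Fact ℓ.Prime], (ℓ : 𝓞 K) ∉ v.asIdeal → ∀ f₁ f₂,
            IsLocalFactor (V ℓ) Q g f₁ → IsLocalFactor (W ℓ) Q g f₂ →
            (f₁ : PowerSeries ℚ_[ℓ]) = R.map (algebraMap ℚ ℚ_[ℓ]) * (f₂ : PowerSeries ℚ_[ℓ])) ∧
      (FactorIndependent V v ↔ FactorIndependent W v) ∧ (PureAt V w v ↔ PureAt W w v)) := by
  obtain ⟨u, φ, U, hw, hUn, hUo, hU, hφ⟩ := Pool.Agent.R401.Tr7.family V hV W hW B hB a w (by
      rintro ℓ _ v hv hℓ g ⟨Q, hQ, hQv, hg⟩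
      exact htr ℓ v hv hℓ Q ⟨hQ, hQv⟩ g hg) C hC θ hθ hd (by
      refine (hdiv.and_eventually (Nat.tendsto_primeCounting.eventually_gt_atTop 0)).mono ?_
      rintro N ⟨h1, h3⟩
      have h4 : (0 : ℝ) < (Nat.primeCounting N : ℝ) := by exact_mod_cast h3
      unfold Pool.Agent.W401.Cheb.dens
      rw [div_le_iff₀ h4]
      exact h1)
  have hpure : ∀ v, PureAt W w v → PureAt V w v := by
    intro v hv
    rw [pureAt_iff] at hv ⊢
    intro Q hQ
    exact Pool.Agent.W2helper44.PT.pure_transfer V W u φ U hUn hUo hU hφ hw hss hQ.1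
      (two_le_norm v) (hv Q hQ)
  refine ⟨fun v hv => ⟨hpure v hv, factor_of_pure V hV (hpure v hv)⟩, ?_⟩
  intro hsV v
  -- the roles of the two families are exchanged
  have hφ' : ∀ (ℓ : ℕ) [Fact ℓ.Prime] (y : AbsGal K), Pool.Agent.R401.Sup3.cyc K ℓ ℚ_[ℓ] y ^ u *
      ((Pool.Agent.R401.Img.mt (W ℓ) y).trace - (Pool.Agent.R401.Img.mt (V ℓ) y).trace) =
      ((-φ y : ℚ) : ℚ_[ℓ]) := by
    intro ℓ _ y
    rw [Rat.cast_neg, ← hφ ℓ y]
    ring
  have hQℓ : ∀ Q, LiesAbove v Q → ∀ ℓ : ℕ,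
      (ℓ : 𝓞 (AlgebraicClosure K)) ∈ Q ↔ (ℓ : 𝓞 K) ∈ v.asIdeal := by
    intro Q hQ ℓ
    rw [← hQ.2, Ideal.mem_comap, map_natCast]
  have h1 : ∀ Q, LiesAbove v Q → ∀ g, FrobeniusAt Q (Ideal.absNorm v.asIdeal) g⁻¹ →
      ∃ R : PowerSeries ℚ, PowerSeries.coeff 0 R = 1 ∧
        ∀ (ℓ : ℕ) [Fact ℓ.Prime], (ℓ : 𝓞 K) ∉ v.asIdeal → ∀ f₁ f₂,
          IsLocalFactor (V ℓ) Q g f₁ → IsLocalFactor (W ℓ) Q g f₂ →
          (f₁ : PowerSeries ℚ_[ℓ]) = R.map (algebraMap ℚ ℚ_[ℓ]) * (f₂ : PowerSeries ℚ_[ℓ]) := by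
    intro Q hQ g hg
    obtain ⟨R, hR0, hR⟩ := Pool.Agent.W2helper44.PT.ss_loc V W u φ U hUn hUo hU hφ hsV hss hQ.1
      (two_le_norm v) hg (fun ℓ _ => invariants (V ℓ) Q) (fun ℓ _ x => Iff.rfl)
      (fun ℓ _ => invariants (W ℓ) Q) (fun ℓ _ x => Iff.rfl)
    rw [inv_inv] at hR
    refine ⟨R, hR0, ?_⟩
    rintro ℓ _ hℓ f₁ f₂ ⟨r, b, A, hA, rfl⟩ ⟨r', b', A', hA', rfl⟩
    rw [← hcast ℚ_[ℓ] (algebraMap ℚ ℚ_[ℓ])]
    exact hR ℓ (fun h' => hℓ ((hQℓ Q hQ ℓ).1 h')) r b A hA r' b' A' hA'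
  have h2 : ∀ Q, LiesAbove v Q → ∀ g, FrobeniusAt Q (Ideal.absNorm v.asIdeal) g⁻¹ →
      ∃ R : PowerSeries ℚ, PowerSeries.coeff 0 R = 1 ∧
        ∀ (ℓ : ℕ) [Fact ℓ.Prime], (ℓ : 𝓞 K) ∉ v.asIdeal → ∀ f₁ f₂,
          IsLocalFactor (W ℓ) Q g f₁ → IsLocalFactor (V ℓ) Q g f₂ →
          (f₁ : PowerSeries ℚ_[ℓ]) = R.map (algebraMap ℚ ℚ_[ℓ]) * (f₂ : PowerSeries ℚ_[ℓ]) := by
    intro Q hQ g hg
    obtain ⟨R, hR0, hR⟩ := Pool.Agent.W2helper44.PT.ss_loc W V u (fun y => -φ y) U hUn hUo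
      (fun x hx y => by rw [hU x hx y]) hφ' hss hsV hQ.1 (two_le_norm v) hg
      (fun ℓ _ => invariants (W ℓ) Q) (fun ℓ _ x => Iff.rfl)
      (fun ℓ _ => invariants (V ℓ) Q) (fun ℓ _ x => Iff.rfl)
    rw [inv_inv] at hR
    refine ⟨R, hR0, ?_⟩
    rintro ℓ _ hℓ f₁ f₂ ⟨r, b, A, hA, rfl⟩ ⟨r', b', A', hA', rfl⟩
    rw [← hcast ℚ_[ℓ] (algebraMap ℚ ℚ_[ℓ])]
    exact hR ℓ (fun h' => hℓ ((hQℓ Q hQ ℓ).1 h')) r b A hA r' b' A' hA'
  refine ⟨quot_choice V W h1, ⟨factor_iff_aux W V h2, factor_iff_aux V W h1⟩, ?_, hpure v⟩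
  intro hv
  rw [pureAt_iff] at hv ⊢
  intro Q hQ
  refine Pool.Agent.W2helper44.PT.pure_transfer W V u (fun y => -φ y) U hUn hUo
    (fun x hx y => by rw [hU x hx y]) hφ' ?_ hsV hQ.1 (two_le_norm v) (hv Q hQ)
  rcases hw with hw | hw
  · exact Or.inl hw
  · exact Or.inr fun y => by rw [hw y, neg_zero]

end Pool.Agent.Results.MP_a3c811_ag.TransferAtBadPlaces
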